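import Mathlib

set_option autoImplicit false

/-!
A shortest closed walk in a bipartite digraph in which every vertex has an out-neighbour.
-/

namespace Pool.Agent.RMI.H24

open Finset

variable {α : Type*}

/-- closed walk `x 0 -> y 0 -> x 1 -> y 1 -> ... -> y (j-1) -> x j = x 0` -/
def CW (A B : α → α → Prop) (X Y : Finset α) (j : ℕ) (x y : ℕ → α) : Prop :=
  0 < j ∧ x j = x 0 ∧ ∀ t < j, x t ∈ X ∧ y t ∈ Y ∧ A (x t) (y t) ∧ B (y t) (x (t + 1))

lemma exists_CW (A B : α → α → Prop) (X Y : Finset α) (hX : X.Nonempty)
    (hA : ∀ x ∈ X, ∃ y ∈ Y, A x y) (hB : ∀ y ∈ Y, ∃ x ∈ X, B y x) :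
    ∃ j x y, CW A B X Y j x y := by
  classical
  obtain ⟨x0, hx0⟩ := hX
  choose! f hfY hfA using hA
  choose! g hgX hgB using hB
  set x : ℕ → α := fun t => (fun z => g (f z))^[t] x0 with hxdef
  have hx : ∀ t, x t ∈ X := by
    intro t
    induction t with
    | zero => simpa [hxdef] using hx0
    | succ t ih =>
      have : x (t + 1) = g (f (x t)) := by simp only [hxdef, Function.iterate_succ_apply']
      rw [this]
      exact hgX _ (hfY _ ih)
  have hsucc : ∀ t, x (t + 1) = g (f (x t)) := by
    intro t
    simp only [hxdef, Function.iterate_succ_apply']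
  obtain ⟨a, b, hab, heq⟩ : ∃ a b : ℕ, a < b ∧ x a = x b := by
    by_contra hcon
    push Not at hcon
    have hinj : Function.Injective (fun t : ℕ => (⟨x t, hx t⟩ : X)) := by
      intro a b hab
      have : x a = x b := by simpa using hab
      rcases lt_trichotomy a b with h | h | h
      · exact absurd this (hcon a b h)
      · exact h
      · exact absurd this.symm (hcon b a h)
    exact not_injective_infinite_finite _ hinj
  refine ⟨b - a, fun t => x (a + t), fun t => f (x (a + t)), by omega, ?_, ?_⟩
  · show x (a + (b - a)) = x (a + 0)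
    rw [show a + (b - a) = b by omega, Nat.add_zero, heq]
  · intro t _
    refine ⟨hx _, hfY _ (hx _), hfA _ (hx _), ?_⟩
    show B (f (x (a + t))) (x (a + (t + 1)))
    rw [← Nat.add_assoc, hsucc]
    exact hgB _ (hfY _ (hx _))

lemma exists_chordless (A B : α → α → Prop) (X Y : Finset α) (hX : X.Nonempty)
    (hA : ∀ x ∈ X, ∃ y ∈ Y, A x y) (hB : ∀ y ∈ Y, ∃ x ∈ X, B y x) :
    ∃ j x y, CW A B X Y j x y ∧ (∀ t < j, ∀ t' < j, t ≠ t' → ¬ A (x t) (y t')) ∧
      (∀ t < j, ∀ t' < j, t ≠ t' → ¬ B (y t) (x (t' + 1))) := by
  classical
  have hex : ∃ j, ∃ x y, CW A B X Y j x y := exists_CW A B X Y hX hA hB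
  obtain ⟨x, y, hW⟩ := Nat.find_spec hex
  have hmin : ∀ j', j' < Nat.find hex → ∀ x' y', ¬ CW A B X Y j' x' y' := by
    intro j' hj' x' y' h
    exact Nat.find_min hex hj' ⟨x', y', h⟩
  set j := Nat.find hex with hj
  obtain ⟨hj0, hclose, hall⟩ := hW
  refine ⟨j, x, y, ⟨hj0, hclose, hall⟩, ?_, ?_⟩
  · intro t ht t' ht' hne hch
    rcases Nat.lt_or_gt_of_ne hne with h | h
    · -- t < t'
      refine hmin (j - (t' - t)) (by omega) (fun s => if s ≤ t then x s else x (s - t + t'))
        (fun s => if s < t then y s else y (s - t + t')) ⟨by omega, ?_, ?_⟩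
      · show (if j - (t' - t) ≤ t then x (j - (t' - t)) else x (j - (t' - t) - t + t'))
          = (if 0 ≤ t then x 0 else x (0 - t + t'))
        rw [if_neg (by omega), if_pos (by omega), show j - (t' - t) - t + t' = j by omega, hclose]
      · intro s hs
        show (if s ≤ t then x s else x (s - t + t')) ∈ X ∧
          (if s < t then y s else y (s - t + t')) ∈ Y ∧
          A (if s ≤ t then x s else x (s - t + t')) (if s < t then y s else y (s - t + t')) ∧
          B (if s < t then y s else y (s - t + t'))
            (if s + 1 ≤ t then x (s + 1) else x (s + 1 - t + t'))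
        rcases lt_trichotomy s t with h1 | h1 | h1
        · rw [if_pos (by omega), if_pos (by omega), if_pos (by omega)]
          exact hall s (by omega)
        · subst h1
          rw [if_pos (by omega), if_neg (by omega), if_neg (by omega),
            show s - s + t' = t' by omega, show s + 1 - s + t' = t' + 1 by omega]
          exact ⟨(hall s (by omega)).1, (hall t' ht').2.1, hch, (hall t' ht').2.2.2⟩
        · rw [if_neg (by omega), if_neg (by omega), if_neg (by omega),
            show s + 1 - t + t' = s - t + t' + 1 by omega]
          exact hall (s - t + t') (by omega)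
    · -- t' < t
      refine hmin (t - t') (by omega) (fun s => if s < t - t' then x (t' + 1 + s) else x (t' + 1))
        (fun s => if s < t - t' - 1 then y (t' + 1 + s) else y t') ⟨by omega, ?_, ?_⟩
      · show (if t - t' < t - t' then x (t' + 1 + (t - t')) else x (t' + 1))
          = (if 0 < t - t' then x (t' + 1 + 0) else x (t' + 1))
        rw [if_neg (by omega), if_pos (by omega), Nat.add_zero]
      · intro s hs
        show (if s < t - t' then x (t' + 1 + s) else x (t' + 1)) ∈ X ∧
          (if s < t - t' - 1 then y (t' + 1 + s) else y t') ∈ Y ∧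
          A (if s < t - t' then x (t' + 1 + s) else x (t' + 1))
            (if s < t - t' - 1 then y (t' + 1 + s) else y t') ∧
          B (if s < t - t' - 1 then y (t' + 1 + s) else y t')
            (if s + 1 < t - t' then x (t' + 1 + (s + 1)) else x (t' + 1))
        rcases Nat.lt_or_ge s (t - t' - 1) with h1 | h1
        · rw [if_pos (by omega), if_pos (by omega), if_pos (by omega),
            show t' + 1 + (s + 1) = t' + 1 + s + 1 by omega]
          exact hall (t' + 1 + s) (by omega)
        · rw [if_pos (by omega), if_neg (by omega), if_neg (by omega),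
            show t' + 1 + s = t by omega]
          exact ⟨(hall t ht).1, (hall t' ht').2.1, hch, (hall t' ht').2.2.2⟩
  · intro t ht t' ht' hne hch
    rcases Nat.lt_or_gt_of_ne hne with h | h
    · -- t < t'
      refine hmin (j - (t' - t)) (by omega) (fun s => if s ≤ t then x s else x (s - t + t'))
        (fun s => if s ≤ t then y s else y (s - t + t')) ⟨by omega, ?_, ?_⟩
      · show (if j - (t' - t) ≤ t then x (j - (t' - t)) else x (j - (t' - t) - t + t'))
          = (if 0 ≤ t then x 0 else x (0 - t + t'))
        rw [if_neg (by omega), if_pos (by omega), show j - (t' - t) - t + t' = j by omega, hclose]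
      · intro s hs
        show (if s ≤ t then x s else x (s - t + t')) ∈ X ∧
          (if s ≤ t then y s else y (s - t + t')) ∈ Y ∧
          A (if s ≤ t then x s else x (s - t + t')) (if s ≤ t then y s else y (s - t + t')) ∧
          B (if s ≤ t then y s else y (s - t + t'))
            (if s + 1 ≤ t then x (s + 1) else x (s + 1 - t + t'))
        rcases lt_trichotomy s t with h1 | h1 | h1
        · rw [if_pos (by omega), if_pos (by omega), if_pos (by omega)]
          exact hall s (by omega)
        · subst h1
          rw [if_pos (by omega), if_pos (by omega), if_neg (by omega),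
            show s + 1 - s + t' = t' + 1 by omega]
          exact ⟨(hall s (by omega)).1, (hall s (by omega)).2.1, (hall s (by omega)).2.2.1, hch⟩
        · rw [if_neg (by omega), if_neg (by omega), if_neg (by omega),
            show s + 1 - t + t' = s - t + t' + 1 by omega]
          exact hall (s - t + t') (by omega)
    · -- t' < t
      refine hmin (t - t') (by omega) (fun s => if s < t - t' then x (t' + 1 + s) else x (t' + 1))
        (fun s => y (t' + 1 + s)) ⟨by omega, ?_, ?_⟩
      · show (if t - t' < t - t' then x (t' + 1 + (t - t')) else x (t' + 1))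
          = (if 0 < t - t' then x (t' + 1 + 0) else x (t' + 1))
        rw [if_neg (by omega), if_pos (by omega), Nat.add_zero]
      · intro s hs
        show (if s < t - t' then x (t' + 1 + s) else x (t' + 1)) ∈ X ∧
          y (t' + 1 + s) ∈ Y ∧
          A (if s < t - t' then x (t' + 1 + s) else x (t' + 1)) (y (t' + 1 + s)) ∧
          B (y (t' + 1 + s))
            (if s + 1 < t - t' then x (t' + 1 + (s + 1)) else x (t' + 1))
        rcases Nat.lt_or_ge s (t - t' - 1) with h1 | h1
        · rw [if_pos (by omega), if_pos (by omega),
            show t' + 1 + (s + 1) = t' + 1 + s + 1 by omega]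
          exact hall (t' + 1 + s) (by omega)
        · rw [if_pos (by omega), if_neg (by omega),
            show t' + 1 + s = t by omega]
          exact ⟨(hall t ht).1, (hall t ht).2.1, (hall t ht).2.2.1, hch⟩

end Pool.Agent.RMI.H24
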