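import Mathlib

set_option autoImplicit false

/-!
Exchange lemmas for common independent sets of two matroids: simultaneous exchange along a chordless
cycle of the exchange digraph, and the walk from one common independent set to another one.
-/

namespace Pool.Agent.RMI.H24

open Finset

variable {α : Type*} [DecidableEq α]

/-- Simultaneous exchange: pairs `(x t, y t)`, `t < i`, with `S - x t + y t` independent and
`S - x t + y t'` dependent for `t ≠ t'`. Then all exchanges may be made at once. -/
lemma swap_indep (M : Matroid α) (S : Finset α) (hS : M.Indep (S : Set α)) (i : ℕ)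
    (x y : ℕ → α) (hx : ∀ t < i, x t ∈ S) (hy : ∀ t < i, y t ∉ S)
    (hA : ∀ t < i, M.Indep ((insert (y t) (S.erase (x t)) : Finset α) : Set α))
    (hn : ∀ t < i, ∀ t' < i, t ≠ t' →
      ¬ M.Indep ((insert (y t') (S.erase (x t)) : Finset α) : Set α)) :
    M.Indep (((S \ (range i).image x) ∪ (range i).image y : Finset α) : Set α) := by
  classical
  rcases Nat.lt_or_ge i 2 with hi | hi
  · interval_cases i
    · simpa using hS
    · have h := hA 0 (by norm_num)
      have he : ((S \ (range 1).image x) ∪ (range 1).image y : Finset α)
          = insert (y 0) (S.erase (x 0)) := by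
        ext z
        simp
        tauto
      rw [he]
      exact h
  · set R : Finset α := S \ (range i).image x with hR
    set Y : Finset α := (range i).image y with hY
    have hyE : ∀ t < i, y t ∈ M.E := fun t ht =>
      (hA t ht).subset_ground (by simp)
    -- `y t` lies in the closure of `S - x t'`, `t' ≠ t`
    have h1 : ∀ t < i, ∀ t' < i, t' ≠ t → y t ∈ M.closure ((S.erase (x t') : Finset α) : Set α) := by
      intro t ht t' ht' hne
      have hI : M.Indep ((S.erase (x t') : Finset α) : Set α) :=
        hS.subset (by simp [Set.sdiff_subset])
      have hnot : y t ∉ ((S.erase (x t') : Finset α) : Set α) := by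
        intro h
        exact hy t ht (Finset.mem_of_mem_erase (by exact_mod_cast h))
      by_contra hcon
      apply hn t' ht' t ht hne
      rw [Finset.coe_insert]
      exact (hI.insert_indep_iff_of_notMem hnot).2 ⟨hyE t ht, hcon⟩
    -- not in the closure of `S - x t`
    have h2 : ∀ t < i, y t ∉ M.closure ((S.erase (x t) : Finset α) : Set α) := by
      intro t ht
      have hI : M.Indep ((S.erase (x t) : Finset α) : Set α) :=
        hS.subset (by simp [Set.sdiff_subset])
      have hnot : y t ∉ ((S.erase (x t) : Finset α) : Set α) := by
        intro h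
        exact hy t ht (Finset.mem_of_mem_erase (by exact_mod_cast h))
      have := (hI.insert_indep_iff_of_notMem hnot).1 (by
        have := hA t ht
        rwa [Finset.coe_insert] at this)
      exact this.2
    -- distinctness of the `x t`
    have hxinj : ∀ t < i, ∀ t' < i, t' ≠ t → x t' ≠ x t := by
      intro t ht t' ht' hne heq
      exact h2 t ht (heq ▸ h1 t ht t' ht' hne)
    -- `y t` is in the closure of `R + x t`
    have h3 : ∀ t < i, y t ∈ M.closure ((insert (x t) R : Finset α) : Set α) := by
      intro t ht
      -- index set of the other `t'`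
      set A : Set ℕ := {t' | t' < i ∧ t' ≠ t} with hAdef
      have hAne : A.Nonempty := by
        rcases Nat.eq_zero_or_pos t with h0 | h0
        · exact ⟨1, by omega, by omega⟩
        · exact ⟨0, by omega, by omega⟩
      have hun : M.Indep (⋃ t' ∈ A, ((S.erase (x t') : Finset α) : Set α)) := by
        refine hS.subset ?_
        intro z hz
        simp only [Set.mem_iUnion] at hz
        obtain ⟨t', -, hz⟩ := hz
        exact_mod_cast Finset.mem_of_mem_erase (by exact_mod_cast hz)
      have hcl := M.closure_biInter_eq_biInter_closure_of_biUnion_indep hAne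
        (I := fun t' => ((S.erase (x t') : Finset α) : Set α)) hun
      have hmem : y t ∈ ⋂ t' ∈ A, M.closure ((S.erase (x t') : Finset α) : Set α) := by
        simp only [Set.mem_iInter]
        intro t' ht'
        exact h1 t ht t' ht'.1 ht'.2
      rw [← hcl] at hmem
      refine M.closure_subset_closure ?_ hmem
      intro z hz
      simp only [Set.mem_iInter] at hz
      obtain ⟨t0, ht0⟩ := hAne
      have hzS : z ∈ S := Finset.mem_of_mem_erase (by exact_mod_cast hz t0 ht0)
      rw [Finset.mem_coe, Finset.mem_insert]
      by_cases hzx : z = x t
      · exact Or.inl hzx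
      · refine Or.inr ?_
        rw [hR, Finset.mem_sdiff]
        refine ⟨hzS, ?_⟩
        intro hz2
        rw [Finset.mem_image] at hz2
        obtain ⟨t', ht', hzt⟩ := hz2
        rw [Finset.mem_range] at ht'
        have hne : t' ≠ t := by
          intro h
          exact hzx (by rw [← hzt, h])
        have := hz t' ⟨ht', hne⟩
        have := Finset.ne_of_mem_erase (by exact_mod_cast this : z ∈ S.erase (x t'))
        exact this hzt.symm
    have h4 : ∀ t < i, y t ∉ M.closure (R : Set α) := by
      intro t ht hmem
      refine h2 t ht (M.closure_subset_closure ?_ hmem)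
      intro z hz
      have hz' : z ∈ R := by exact_mod_cast hz
      rw [hR, Finset.mem_sdiff] at hz'
      rw [Finset.mem_coe, Finset.mem_erase]
      refine ⟨?_, hz'.1⟩
      intro h
      exact hz'.2 (Finset.mem_image.2 ⟨t, Finset.mem_range.2 ht, h.symm⟩)
    -- exchange
    have h5 : ∀ t < i, x t ∈ M.closure ((R ∪ Y : Finset α) : Set α) := by
      intro t ht
      have hex : x t ∈ M.closure (insert (y t) (R : Set α)) := by
        apply M.mem_closure_insert (h4 t ht)
        have := h3 t ht
        rwa [Finset.coe_insert] at this
      refine M.closure_subset_closure ?_ hex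
      intro z hz
      rcases hz with rfl | hz
      · rw [Finset.mem_coe, Finset.mem_union]
        exact Or.inr (Finset.mem_image.2 ⟨t, Finset.mem_range.2 ht, rfl⟩)
      · rw [Finset.mem_coe, Finset.mem_union]
        exact Or.inl (by exact_mod_cast hz)
    have hRE : ((R ∪ Y : Finset α) : Set α) ⊆ M.E := by
      intro z hz
      rw [Finset.mem_coe, Finset.mem_union] at hz
      rcases hz with hz | hz
      · exact hS.subset_ground (by exact_mod_cast (Finset.mem_sdiff.1 hz).1)
      · obtain ⟨t, ht, rfl⟩ := Finset.mem_image.1 hz
        exact hyE t (Finset.mem_range.1 ht)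
    have h6 : (S : Set α) ⊆ M.closure ((R ∪ Y : Finset α) : Set α) := by
      intro z hz
      by_cases hzR : z ∈ R
      · exact M.mem_closure_of_mem (by rw [Finset.mem_coe, Finset.mem_union]; exact Or.inl hzR) hRE
      · have : z ∈ (range i).image x := by
          by_contra h
          exact hzR (Finset.mem_sdiff.2 ⟨by exact_mod_cast hz, h⟩)
        obtain ⟨t, ht, rfl⟩ := Finset.mem_image.1 this
        exact h5 t (Finset.mem_range.1 ht)
    -- cardinality
    have hcardx : ((range i).image x).card = i := by
      rw [Finset.card_image_of_injOn, Finset.card_range]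
      intro a ha b hb hab
      by_contra hne
      exact hxinj b (by simpa using hb) a (by simpa using ha) hne hab
    have hsub : (range i).image x ⊆ S := by
      intro z hz
      obtain ⟨t, ht, rfl⟩ := Finset.mem_image.1 hz
      exact hx t (Finset.mem_range.1 ht)
    have hcard : (R ∪ Y).card ≤ S.card := by
      have a1 : R.card = S.card - i := by rw [hR, Finset.card_sdiff_of_subset hsub, hcardx]
      have a2 : Y.card ≤ i := by
        have := Finset.card_image_le (s := range i) (f := y)
        rwa [Finset.card_range] at this
      have a3 := Finset.card_union_le R Y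
      have a4 : i ≤ S.card := by rw [← hcardx]; exact Finset.card_le_card hsub
      omega
    have hfin : M.IsRkFinite ((R ∪ Y : Finset α) : Set α) :=
      M.isRkFinite_of_finite (Finset.finite_toSet _)
    apply hfin.indep_of_encard_le_eRk
    calc ((R ∪ Y : Finset α) : Set α).encard = ((R ∪ Y).card : ℕ∞) := Set.encard_coe_eq_coe_finsetCard _
      _ ≤ (S.card : ℕ∞) := by exact_mod_cast hcard
      _ = (S : Set α).encard := (Set.encard_coe_eq_coe_finsetCard _).symm
      _ ≤ M.eRk (M.closure ((R ∪ Y : Finset α) : Set α)) := hS.encard_le_eRk_of_subset h6
      _ = M.eRk ((R ∪ Y : Finset α) : Set α) := M.eRk_closure_eq _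

end Pool.Agent.RMI.H24
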