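import Pool.Agent.Helper24_RMI.Swap
import Pool.Agent.Helper24_RMI.Cycle

set_option autoImplicit false

/-!
The walk from a common independent set `S` to a common independent set `T` of the same size through
common independent sets of size one less.
-/

namespace Pool.Agent.RMI.H24

open Finset

variable {α : Type*} [DecidableEq α]

lemma outM (M : Matroid α) (S T : Finset α) (hS : M.Indep (S : Set α)) (hT : M.Indep (T : Set α))
    (hc : S.card = T.card) (x : α) (hx : x ∈ S \ T) :
    ∃ y ∈ T \ S, M.Indep ((insert y (S.erase x) : Finset α) : Set α) := by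
  obtain ⟨hxS, hxT⟩ := Finset.mem_sdiff.1 hx
  have hI : M.Indep ((S.erase x : Finset α) : Set α) := hS.subset (by simp)
  have hlt : ((S.erase x : Finset α) : Set α).encard < (T : Set α).encard := by
    rw [Set.encard_coe_eq_coe_finsetCard, Set.encard_coe_eq_coe_finsetCard]
    have := Finset.card_erase_lt_of_mem hxS
    exact_mod_cast (by omega : (S.erase x).card < T.card)
  obtain ⟨e, he, hins⟩ := hI.augment hT hlt
  have heT : e ∈ T := by exact_mod_cast he.1
  have heS : e ∉ S.erase x := by
    intro h
    exact he.2 (by exact_mod_cast h)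
  have hne : e ≠ x := fun h => hxT (h ▸ heT)
  refine ⟨e, Finset.mem_sdiff.2 ⟨heT, fun h => heS (Finset.mem_erase.2 ⟨hne, h⟩)⟩, ?_⟩
  rw [Finset.coe_insert]
  exact hins

lemma outN (N : Matroid α) (S T : Finset α) (hS : N.Indep (S : Set α)) (hT : N.Indep (T : Set α))
    (hc : S.card = T.card) (y : α) (hy : y ∈ T \ S) :
    ∃ x ∈ S \ T, N.Indep ((insert y (S.erase x) : Finset α) : Set α) := by
  obtain ⟨hyT, hyS⟩ := Finset.mem_sdiff.1 hy
  -- augment `(S ∩ T) + y` from `S`
  by_contra hcon
  push Not at hcon
  -- maximal independent set between `(S ∩ T) + y` and `S + y`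
  have hI0 : N.Indep ((insert y (S ∩ T) : Finset α) : Set α) := by
    refine hT.subset ?_
    intro z hz
    rw [Finset.mem_coe, Finset.mem_insert, Finset.mem_inter] at hz
    rcases hz with rfl | hz
    · exact_mod_cast hyT
    · exact_mod_cast hz.2
  have key : ∀ k : ℕ, k + (S ∩ T).card + 1 ≤ S.card →
      ∃ J : Finset α, insert y (S ∩ T) ⊆ J ∧ J ⊆ insert y S ∧ N.Indep (J : Set α) ∧
        J.card = k + (S ∩ T).card + 1 := by
    intro k
    induction k with
    | zero =>
      intro _
      refine ⟨insert y (S ∩ T), subset_rfl, ?_, hI0, ?_⟩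
      · exact Finset.insert_subset_insert _ Finset.inter_subset_left
      · rw [Finset.card_insert_of_notMem (fun h => hyS (Finset.mem_inter.1 h).1)]
        omega
    | succ k ih =>
      intro hk
      obtain ⟨J, h1, h2, h3, h4⟩ := ih (by omega)
      have hlt : (J : Set α).encard < (S : Set α).encard := by
        rw [Set.encard_coe_eq_coe_finsetCard, Set.encard_coe_eq_coe_finsetCard]
        exact_mod_cast (by omega : J.card < S.card)
      obtain ⟨e, he, hins⟩ := h3.augment hS hlt
      have heS : e ∈ S := by exact_mod_cast he.1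
      have heJ : e ∉ J := fun h => he.2 (by exact_mod_cast h)
      refine ⟨insert e J, h1.trans (Finset.subset_insert _ _), ?_, ?_, ?_⟩
      · intro z hz
        rcases Finset.mem_insert.1 hz with rfl | hz
        · exact Finset.mem_insert_of_mem heS
        · exact h2 hz
      · rw [Finset.coe_insert]
        exact hins
      · rw [Finset.card_insert_of_notMem heJ, h4]
        omega
  have hST : (S ∩ T).card + 1 ≤ S.card := by
    have h1 : (insert y (S ∩ T)).card ≤ T.card := by
      apply Finset.card_le_card
      intro z hz
      rcases Finset.mem_insert.1 hz with rfl | hz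
      · exact hyT
      · exact (Finset.mem_inter.1 hz).2
    rw [Finset.card_insert_of_notMem (fun h => hyS (Finset.mem_inter.1 h).1)] at h1
    omega
  obtain ⟨J, h1, h2, h3, h4⟩ := key (S.card - ((S ∩ T).card + 1)) (by omega)
  have hJc : J.card = S.card := by omega
  have hyJ : y ∈ J := h1 (Finset.mem_insert_self _ _)
  have hJy : J.erase y ⊆ S := by
    intro z hz
    obtain ⟨hz1, hz2⟩ := Finset.mem_erase.1 hz
    rcases Finset.mem_insert.1 (h2 hz2) with h | h
    · exact absurd h hz1
    · exact h
  have hcard : (J.erase y).card + 1 = S.card := by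
    rw [Finset.card_erase_of_mem hyJ]
    have := Finset.card_pos.2 ⟨y, hyJ⟩
    omega
  obtain ⟨x, hx, hxe⟩ : ∃ x ∈ S, J.erase y = S.erase x := by
    have hss : J.erase y ⊂ S := by
      refine Finset.ssubset_iff_subset_ne.2 ⟨hJy, ?_⟩
      intro h
      rw [h] at hcard
      omega
    obtain ⟨x, hxS, hxJ⟩ := Finset.exists_of_ssubset hss
    refine ⟨x, hxS, ?_⟩
    apply Finset.eq_of_subset_of_card_le
    · intro z hz
      rw [Finset.mem_erase]
      exact ⟨fun h => hxJ (h ▸ hz), hJy hz⟩
    · rw [Finset.card_erase_of_mem hxS]
      omega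
  have hxT : x ∉ T := by
    intro hxT
    have hxJ : x ∈ J := h1 (Finset.mem_insert_of_mem (Finset.mem_inter.2 ⟨hx, hxT⟩))
    have hxy : x ≠ y := fun h => hyS (h ▸ hx)
    have : x ∈ S.erase x := by
      rw [← hxe]
      exact Finset.mem_erase.2 ⟨hxy, hxJ⟩
    exact (Finset.mem_erase.1 this).1 rfl
  refine hcon x (Finset.mem_sdiff.2 ⟨hx, hxT⟩) ?_
  rw [← hxe, Finset.insert_erase hyJ]
  exact h3

/-- The walk. -/
theorem walk (M N : Matroid α) (T : Finset α) (hTM : M.Indep (T : Set α))
    (hTN : N.Indep (T : Set α)) :
    ∀ d : ℕ, ∀ S : Finset α, M.Indep (S : Set α) → N.Indep (S : Set α) → S.card = T.card →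
      (T \ S).card = d → ∀ s < d, ∃ R : Finset α, M.Indep (R : Set α) ∧ N.Indep (R : Set α) ∧
        S ∩ T ⊆ R ∧ R ⊆ S ∪ T ∧ (R \ T).card + 1 + s = d ∧ (R \ S).card = s := by
  intro d
  induction d using Nat.strong_induction_on with
  | _ d ih =>
  intro S hSM hSN hc hd s hs
  have hd' : (S \ T).card = d := by
    rw [← hd]
    have h1 := Finset.card_sdiff_add_card_inter S T
    have h2 := Finset.card_sdiff_add_card_inter T S
    rw [Finset.inter_comm] at h2
    omega
  have hX : (S \ T).Nonempty := by
    rw [← Finset.card_pos]
    omega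
  obtain ⟨j, x, y, ⟨hj0, hclose, hall⟩, hchA, hchB⟩ := exists_chordless
    (fun x y => M.Indep ((insert y (S.erase x) : Finset α) : Set α))
    (fun y x => N.Indep ((insert y (S.erase x) : Finset α) : Set α))
    (S \ T) (T \ S) hX (fun x hx => outM M S T hSM hTM hc x hx)
    (fun y hy => outN N S T hSN hTN hc y hy)
  simp only at hall hchA hchB
  have hxS : ∀ t ≤ j, x t ∈ S \ T := by
    intro t ht
    rcases Nat.lt_or_ge t j with h | h
    · exact (hall t h).1
    · have : t = j := le_antisymm ht h
      rw [this, hclose]
      exact (hall 0 hj0).1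
  have hyT : ∀ t < j, y t ∈ T \ S := fun t ht => (hall t ht).2.1
  have hyinj : ∀ t < j, ∀ t' < j, y t = y t' → t = t' := by
    intro t ht t' ht' heq
    by_contra hne
    exact hchA t ht t' ht' hne (heq ▸ (hall t ht).2.2.1)
  have hxinj : ∀ t < j, ∀ t' < j, x t = x t' → t = t' := by
    intro t ht t' ht' heq
    by_contra hne
    exact hchA t ht t' ht' hne (heq ▸ (hall t' ht').2.2.1)
  -- M-independence of all partial exchanges
  have hMi : ∀ i ≤ j, M.Indep (((S \ (range i).image x) ∪ (range i).image y : Finset α) : Set α) := by
    intro i hi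
    refine swap_indep M S hSM i x y (fun t ht => (Finset.mem_sdiff.1 (hxS t (by omega))).1)
      (fun t ht => (Finset.mem_sdiff.1 (hyT t (by omega))).2)
      (fun t ht => (hall t (by omega)).2.2.1) ?_
    intro t ht t' ht' hne
    exact hchA t (by omega) t' (by omega) hne
  have hNi : ∀ i ≤ j, N.Indep
      (((S \ (range i).image (fun t => x (t + 1))) ∪ (range i).image y : Finset α) : Set α) := by
    intro i hi
    refine swap_indep N S hSN i (fun t => x (t + 1)) y
      (fun t ht => (Finset.mem_sdiff.1 (hxS (t + 1) (by omega))).1)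
      (fun t ht => (Finset.mem_sdiff.1 (hyT t (by omega))).2)
      (fun t ht => (hall t (by omega)).2.2.2) ?_
    intro t ht t' ht' hne
    exact hchB t' (by omega) t (by omega) (Ne.symm hne)
  rcases Nat.lt_or_ge s j with hsj | hsj
  · -- partial exchange along the cycle
    refine ⟨(S \ (range (s + 1)).image x) ∪ (range s).image y, ?_, ?_, ?_, ?_, ?_, ?_⟩
    · refine (hMi s (by omega)).subset ?_
      intro z hz
      rw [Finset.mem_coe, Finset.mem_union, Finset.mem_sdiff] at hz ⊢
      rcases hz with hz | hz
      · refine Or.inl ⟨hz.1, fun h => hz.2 ?_⟩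
        exact Finset.image_subset_image (Finset.range_subset_range.2 (by omega)) h
      · exact Or.inr hz
    · refine (hNi s (by omega)).subset ?_
      intro z hz
      rw [Finset.mem_coe, Finset.mem_union, Finset.mem_sdiff] at hz ⊢
      rcases hz with hz | hz
      · refine Or.inl ⟨hz.1, fun h => hz.2 ?_⟩
        obtain ⟨t, ht, rfl⟩ := Finset.mem_image.1 h
        exact Finset.mem_image.2 ⟨t + 1, by
          rw [Finset.mem_range] at ht ⊢
          omega, rfl⟩
      · exact Or.inr hz
    · intro z hz
      obtain ⟨h1, h2⟩ := Finset.mem_inter.1 hz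
      rw [Finset.mem_union, Finset.mem_sdiff]
      refine Or.inl ⟨h1, fun h => ?_⟩
      obtain ⟨t, ht, rfl⟩ := Finset.mem_image.1 h
      rw [Finset.mem_range] at ht
      exact (Finset.mem_sdiff.1 (hxS t (by omega))).2 h2
    · intro z hz
      rcases Finset.mem_union.1 hz with h | h
      · exact Finset.mem_union_left _ (Finset.mem_sdiff.1 h).1
      · obtain ⟨t, ht, rfl⟩ := Finset.mem_image.1 h
        rw [Finset.mem_range] at ht
        exact Finset.mem_union_right _ (Finset.mem_sdiff.1 (hyT t (by omega))).1
    · have he : ((S \ (range (s + 1)).image x) ∪ (range s).image y) \ T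
          = (S \ T) \ (range (s + 1)).image x := by
        ext z
        rw [Finset.mem_sdiff, Finset.mem_union, Finset.mem_sdiff, Finset.mem_sdiff,
          Finset.mem_sdiff]
        constructor
        · rintro ⟨h | h, h2⟩
          · exact ⟨⟨h.1, h2⟩, h.2⟩
          · obtain ⟨t, ht, rfl⟩ := Finset.mem_image.1 h
            rw [Finset.mem_range] at ht
            exact absurd (Finset.mem_sdiff.1 (hyT t (by omega))).1 h2
        · rintro ⟨⟨h1, h2⟩, h3⟩
          exact ⟨Or.inl ⟨h1, h3⟩, h2⟩
      have hsub : (range (s + 1)).image x ⊆ S \ T := by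
        intro z hz
        obtain ⟨t, ht, rfl⟩ := Finset.mem_image.1 hz
        rw [Finset.mem_range] at ht
        exact hxS t (by omega)
      have hci : ((range (s + 1)).image x).card = s + 1 := by
        rw [Finset.card_image_of_injOn, Finset.card_range]
        intro a ha b hb hab
        rw [Finset.coe_range, Set.mem_Iio] at ha hb
        exact hxinj a (by omega) b (by omega) hab
      rw [he, Finset.card_sdiff_of_subset hsub, hci, hd']
      omega
    · have he : ((S \ (range (s + 1)).image x) ∪ (range s).image y) \ S = (range s).image y := by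
        ext z
        rw [Finset.mem_sdiff, Finset.mem_union, Finset.mem_sdiff]
        constructor
        · rintro ⟨h | h, h2⟩
          · exact absurd h.1 h2
          · exact h
        · intro h
          refine ⟨Or.inr h, ?_⟩
          obtain ⟨t, ht, rfl⟩ := Finset.mem_image.1 h
          rw [Finset.mem_range] at ht
          exact (Finset.mem_sdiff.1 (hyT t (by omega))).2
      rw [he, Finset.card_image_of_injOn, Finset.card_range]
      intro a ha b hb hab
      rw [Finset.coe_range, Set.mem_Iio] at ha hb
      exact hyinj a (by omega) b (by omega) hab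
  · -- full exchange, then induction
    set S' : Finset α := (S \ (range j).image x) ∪ (range j).image y with hS'
    have himg : (range j).image (fun t => x (t + 1)) = (range j).image x := by
      ext z
      constructor
      · intro h
        obtain ⟨t, ht, rfl⟩ := Finset.mem_image.1 h
        rw [Finset.mem_range] at ht
        rcases Nat.lt_or_ge (t + 1) j with h1 | h1
        · exact Finset.mem_image.2 ⟨t + 1, Finset.mem_range.2 h1, rfl⟩
        · have : t + 1 = j := by omega
          refine Finset.mem_image.2 ⟨0, Finset.mem_range.2 hj0, ?_⟩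
          show x 0 = x (t + 1)
          rw [this, hclose]
      · intro h
        obtain ⟨t, ht, rfl⟩ := Finset.mem_image.1 h
        rw [Finset.mem_range] at ht
        rcases Nat.eq_zero_or_pos t with h1 | h1
        · refine Finset.mem_image.2 ⟨j - 1, Finset.mem_range.2 (by omega), ?_⟩
          show x (j - 1 + 1) = x t
          rw [show j - 1 + 1 = j by omega, hclose, h1]
        · refine Finset.mem_image.2 ⟨t - 1, Finset.mem_range.2 (by omega), ?_⟩
          show x (t - 1 + 1) = x t
          rw [show t - 1 + 1 = t by omega]
    have hS'M : M.Indep (S' : Set α) := hMi j le_rfl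
    have hS'N : N.Indep (S' : Set α) := by
      have := hNi j le_rfl
      rwa [himg] at this
    have hxsub : (range j).image x ⊆ S \ T := by
      intro z hz
      obtain ⟨t, ht, rfl⟩ := Finset.mem_image.1 hz
      rw [Finset.mem_range] at ht
      exact hxS t (by omega)
    have hysub : (range j).image y ⊆ T \ S := by
      intro z hz
      obtain ⟨t, ht, rfl⟩ := Finset.mem_image.1 hz
      rw [Finset.mem_range] at ht
      exact hyT t ht
    have hcx : ((range j).image x).card = j := by
      rw [Finset.card_image_of_injOn, Finset.card_range]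
      intro a ha b hb hab
      rw [Finset.coe_range, Set.mem_Iio] at ha hb
      exact hxinj a (by omega) b (by omega) hab
    have hcy : ((range j).image y).card = j := by
      rw [Finset.card_image_of_injOn, Finset.card_range]
      intro a ha b hb hab
      rw [Finset.coe_range, Set.mem_Iio] at ha hb
      exact hyinj a (by omega) b (by omega) hab
    have hdisj : Disjoint (S \ (range j).image x) ((range j).image y) := by
      rw [Finset.disjoint_left]
      intro z h1 h2
      exact (Finset.mem_sdiff.1 (hysub h2)).2 (Finset.mem_sdiff.1 h1).1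
    have hxS' : (range j).image x ⊆ S := hxsub.trans Finset.sdiff_subset
    have hjS : j ≤ S.card := by
      rw [← hcx]
      exact Finset.card_le_card hxS'
    have hc' : S'.card = T.card := by
      rw [hS', Finset.card_union_of_disjoint hdisj, Finset.card_sdiff_of_subset hxS', hcx, hcy]
      omega
    have hTS' : T \ S' = (T \ S) \ (range j).image y := by
      ext z
      rw [Finset.mem_sdiff, Finset.mem_sdiff, Finset.mem_sdiff, hS', Finset.mem_union,
        Finset.mem_sdiff]
      constructor
      · rintro ⟨h1, h2⟩
        refine ⟨⟨h1, fun h => h2 (Or.inl ⟨h, fun hx' => ?_⟩)⟩, fun h => h2 (Or.inr h)⟩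
        exact (Finset.mem_sdiff.1 (hxsub hx')).2 h1
      · rintro ⟨⟨h1, h2⟩, h3⟩
        refine ⟨h1, ?_⟩
        rintro (h | h)
        · exact h2 h.1
        · exact h3 h
    have hdT : (T \ S').card = d - j := by
      rw [hTS', Finset.card_sdiff_of_subset hysub, hcy, hd]
    obtain ⟨R, h1, h2, h3, h4, h5, h6⟩ := ih (d - j) (by omega) S' hS'M hS'N hc' hdT (s - j)
      (by omega)
    have hyR : (range j).image y ⊆ R := by
      intro z hz
      apply h3
      rw [Finset.mem_inter, hS', Finset.mem_union]
      exact ⟨Or.inr hz, (Finset.mem_sdiff.1 (hysub hz)).1⟩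
    refine ⟨R, h1, h2, ?_, ?_, ?_, ?_⟩
    · intro z hz
      obtain ⟨hz1, hz2⟩ := Finset.mem_inter.1 hz
      apply h3
      rw [Finset.mem_inter, hS', Finset.mem_union, Finset.mem_sdiff]
      refine ⟨Or.inl ⟨hz1, fun h => ?_⟩, hz2⟩
      exact (Finset.mem_sdiff.1 (hxsub h)).2 hz2
    · intro z hz
      rcases Finset.mem_union.1 (h4 hz) with h | h
      · rw [hS', Finset.mem_union] at h
        rcases h with h | h
        · exact Finset.mem_union_left _ (Finset.mem_sdiff.1 h).1
        · exact Finset.mem_union_right _ (Finset.mem_sdiff.1 (hysub h)).1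
      · exact Finset.mem_union_right _ h
    · omega
    · have he : R \ S = (R \ S') ∪ (range j).image y := by
        ext z
        rw [Finset.mem_union, Finset.mem_sdiff, Finset.mem_sdiff]
        constructor
        · rintro ⟨hz1, hz2⟩
          by_cases hzy : z ∈ (range j).image y
          · exact Or.inr hzy
          · refine Or.inl ⟨hz1, ?_⟩
            rw [hS', Finset.mem_union]
            rintro (h | h)
            · exact hz2 (Finset.mem_sdiff.1 h).1
            · exact hzy h
        · rintro (⟨hz1, hz2⟩ | hz)
          · refine ⟨hz1, fun h => ?_⟩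
            by_cases hzx : z ∈ (range j).image x
            · have hzT := (Finset.mem_sdiff.1 (hxsub hzx)).2
              rcases Finset.mem_union.1 (h4 hz1) with h' | h'
              · exact hz2 h'
              · exact hzT h'
            · exact hz2 (by rw [hS', Finset.mem_union, Finset.mem_sdiff]; exact Or.inl ⟨h, hzx⟩)
          · exact ⟨hyR hz, (Finset.mem_sdiff.1 (hysub hz)).2⟩
      have hdj : Disjoint (R \ S') ((range j).image y) := by
        rw [Finset.disjoint_left]
        intro z hz1 hz2
        exact (Finset.mem_sdiff.1 hz1).2 (by rw [hS', Finset.mem_union]; exact Or.inr hz2)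
      rw [he, Finset.card_union_of_disjoint hdj, h6, hcy]
      omega

end Pool.Agent.RMI.H24
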